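import Pool.Agent.Y862.GM.Stm

/-!
# Powers of cosines (helper954)
-/

set_option autoImplicit false

namespace Pool.Agent.Y954.GM

open Finset Pool.Agent.Y862.GM

theorem prod_diff {ι : Type*} (s : Finset ι) (x y : ι → ℝ) (hx : ∀ i, |x i| ≤ 1)
    (hy : ∀ i, |y i| ≤ 1) : |∏ i ∈ s, x i - ∏ i ∈ s, y i| ≤ ∑ i ∈ s, |x i - y i| := by
  classical
  induction s using Finset.induction_on with
  | empty => simp
  | insert a s ha ih =>
    rw [Finset.prod_insert ha, Finset.prod_insert ha, Finset.sum_insert ha]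
    have h1 : |∏ i ∈ s, y i| ≤ 1 := by
      rw [Finset.abs_prod]
      exact Finset.prod_le_one (fun i _ => abs_nonneg _) (fun i _ => hy i)
    have h2 : x a * ∏ i ∈ s, x i - y a * ∏ i ∈ s, y i =
        (x a - y a) * ∏ i ∈ s, y i + x a * (∏ i ∈ s, x i - ∏ i ∈ s, y i) := by ring
    rw [h2]
    refine (abs_add_le _ _).trans (add_le_add ?_ ?_)
    · rw [abs_mul]
      exact mul_le_of_le_one_right (abs_nonneg _) h1
    · rw [abs_mul]
      exact (mul_le_of_le_one_left (abs_nonneg _) (hx a)).trans ih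

theorem pow_diff (q : ℕ) (x y : ℝ) (hx : |x| ≤ 1) (hy : |y| ≤ 1) :
    |x ^ q - y ^ q| ≤ q * |x - y| := by
  have h := prod_diff (range q) (fun _ => x) (fun _ => y) (fun _ => hx) (fun _ => hy)
  simpa using h

theorem cos_diff (u : ℝ) (hu : |u| ≤ 1) : |Real.cos u - Real.exp (-(u ^ 2 / 2))| ≤ u ^ 4 := by
  have h1 := Real.cos_bound hu
  have hu2 : u ^ 2 ≤ 1 := by
    rw [← sq_abs]
    exact pow_le_one₀ (abs_nonneg u) hu
  have h2 := Real.abs_exp_sub_one_sub_id_le (x := -(u ^ 2 / 2)) (by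
    rw [abs_neg, abs_of_nonneg (by positivity)]
    linarith)
  have h3 : |u| ^ 4 = u ^ 4 := by
    rw [show (4 : ℕ) = 2 * 2 by norm_num, pow_mul, pow_mul, sq_abs]
  rw [h3] at h1
  rw [abs_le] at h1 h2 ⊢
  have h4 : (-(u ^ 2 / 2)) ^ 2 = u ^ 4 / 4 := by ring
  rw [h4] at h2
  have h5 : 0 ≤ u ^ 4 := by positivity
  constructor <;> linarith [h1.1, h1.2, h2.1, h2.2]

theorem exp_diff {a b : ℝ} (ha : 0 ≤ a) (hb : 0 ≤ b) :
    |Real.exp (-a) - Real.exp (-b)| ≤ |a - b| := by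
  have key : ∀ x y : ℝ, 0 ≤ x → x ≤ y → |Real.exp (-x) - Real.exp (-y)| ≤ |x - y| := by
    intro x y hx hxy
    have h1 : Real.exp (-y) ≤ Real.exp (-x) := Real.exp_le_exp.2 (by linarith)
    rw [abs_of_nonneg (by linarith), abs_sub_comm, abs_of_nonneg (by linarith)]
    have h2 : Real.exp (-y) = Real.exp (-x) * Real.exp (x - y) := by
      rw [← Real.exp_add]
      congr 1
      ring
    have h3 := Real.add_one_le_exp (x - y)
    have h4 : Real.exp (-x) ≤ 1 := Real.exp_le_one_iff.2 (by linarith)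
    have h5 := Real.exp_pos (-x)
    rw [h2]
    nlinarith
  rcases le_total a b with h | h
  · exact key a b ha h
  · rw [abs_sub_comm, abs_sub_comm a b]
    exact key b a hb h

theorem t_COS : S_COS := by
  intro k T ε hε
  have hpi := Real.pi_pos
  set c : ℝ := 6 / Real.pi ^ 2 with hc
  have hc0 : 0 < c := by positivity
  have hc1 : c ≤ 1 := by
    rw [hc, div_le_one (by positivity)]
    nlinarith [Real.pi_gt_three]
  set A : ℝ := |T| with hA
  have hA0 : 0 ≤ A := abs_nonneg T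
  refine ⟨⌈A ^ 2 / c + 4 * k * A ^ 4 / (c ^ 2 * ε) + 1⌉₊, min 1 (c * ε / (k * A ^ 2 + 1)),
    lt_min one_pos (by positivity), ?_⟩
  intro b hb w hw q hq
  have hb' : A ^ 2 / c + 4 * k * A ^ 4 / (c ^ 2 * ε) + 1 ≤ b := (Nat.le_ceil _).trans (by exact_mod_cast hb)
  have hb1 : (1 : ℝ) ≤ b := by
    have : 0 ≤ A ^ 2 / c + 4 * k * A ^ 4 / (c ^ 2 * ε) := by positivity
    linarith
  have hb0 : (0 : ℝ) < b := by linarith
  have hbA : A ^ 2 ≤ c * b := by
    have h1 : A ^ 2 / c ≤ b := by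
      have : 0 ≤ 4 * k * A ^ 4 / (c ^ 2 * ε) := by positivity
      linarith
    rw [div_le_iff₀ hc0] at h1
    linarith
  have hbB : 4 * k * A ^ 4 ≤ b * (c ^ 2 * ε) := by
    have h1 : 4 * k * A ^ 4 / (c ^ 2 * ε) ≤ b := by
      have : 0 ≤ A ^ 2 / c := by positivity
      linarith
    rwa [div_le_iff₀ (by positivity)] at h1
  have hσ : 6 * (b : ℝ) / Real.pi ^ 2 = c * b := by
    rw [hc]
    ring
  rw [hσ]
  have hcb : 0 < c * b := by positivity
  have hwA : ∀ i, |w i| ≤ A := fun i => (hw i).trans (le_abs_self T)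
  have hw2 : ∀ i, w i ^ 2 ≤ A ^ 2 := fun i => by
    rw [← sq_abs]
    exact pow_le_pow_left₀ (abs_nonneg _) (hwA i) 2
  have hu2 : ∀ i, (w i / √(c * b)) ^ 2 = w i ^ 2 / (c * b) := fun i => by
    rw [div_pow, Real.sq_sqrt hcb.le]
  have hu : ∀ i, |w i / √(c * b)| ≤ 1 := fun i => by
    rw [← sq_le_one_iff_abs_le_one, hu2, div_le_one hcb]
    exact (hw2 i).trans hbA
  have hq2 : ∀ i, (q i : ℝ) ≤ 2 * b := fun i => by
    have h1 := (abs_le.1 (hq i)).2
    have h2 : min 1 (c * ε / (k * A ^ 2 + 1)) ≤ 1 := min_le_left _ _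
    have h3 : (q i : ℝ) / b ≤ 2 := by linarith
    rwa [div_le_iff₀ hb0] at h3
  -- first step
  have hs1 : |∏ i, Real.cos (w i / √(c * b)) ^ q i -
      ∏ i, Real.exp (-((w i / √(c * b)) ^ 2 / 2)) ^ q i| ≤ ε / 2 := by
    have h1 := prod_diff univ (fun i => Real.cos (w i / √(c * b)) ^ q i)
      (fun i => Real.exp (-((w i / √(c * b)) ^ 2 / 2)) ^ q i)
      (fun i => by
        rw [abs_pow]
        exact pow_le_one₀ (abs_nonneg _) (Real.abs_cos_le_one _))
      (fun i => by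
        rw [abs_pow, abs_of_pos (Real.exp_pos _)]
        exact pow_le_one₀ (Real.exp_pos _).le (Real.exp_le_one_iff.2 (by
          have := sq_nonneg (w i / √(c * b))
          linarith)))
    refine h1.trans ?_
    have h2 : ∀ i, |Real.cos (w i / √(c * b)) ^ q i -
        Real.exp (-((w i / √(c * b)) ^ 2 / 2)) ^ q i| ≤ 2 * b * (A ^ 4 / (c * b) ^ 2) := by
      intro i
      refine (pow_diff _ _ _ (Real.abs_cos_le_one _) (by
        rw [abs_of_pos (Real.exp_pos _)]
        exact Real.exp_le_one_iff.2 (by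
          have := sq_nonneg (w i / √(c * b))
          linarith))).trans ?_
      apply mul_le_mul (hq2 i) _ (abs_nonneg _) (by positivity)
      refine (cos_diff _ (hu i)).trans ?_
      have h3 : (w i / √(c * b)) ^ 4 = (w i ^ 2) ^ 2 / (c * b) ^ 2 := by
        rw [show (4 : ℕ) = 2 * 2 by norm_num, pow_mul, hu2, div_pow]
      rw [h3]
      apply div_le_div_of_nonneg_right _ (by positivity)
      calc (w i ^ 2) ^ 2 ≤ (A ^ 2) ^ 2 := pow_le_pow_left₀ (sq_nonneg _) (hw2 i) 2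
        _ = A ^ 4 := by ring
    calc ∑ i, |Real.cos (w i / √(c * b)) ^ q i -
        Real.exp (-((w i / √(c * b)) ^ 2 / 2)) ^ q i|
        ≤ ∑ _i : Fin k, 2 * b * (A ^ 4 / (c * b) ^ 2) := Finset.sum_le_sum fun i _ => h2 i
      _ = k * (2 * b * (A ^ 4 / (c * b) ^ 2)) := by simp
      _ ≤ ε / 2 := by
        have h4 : k * (2 * b * (A ^ 4 / (c * b) ^ 2)) = 4 * k * A ^ 4 / (2 * (b * c ^ 2)) := by
          field_simp
          ring
        rw [h4, div_le_iff₀ (by positivity)]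
        nlinarith
  -- second step
  have hs2 : |∏ i, Real.exp (-((w i / √(c * b)) ^ 2 / 2)) ^ q i -
      Real.exp (-(∑ i, w i ^ 2) / 2)| ≤ ε / 2 := by
    have h1 : ∏ i, Real.exp (-((w i / √(c * b)) ^ 2 / 2)) ^ q i =
        Real.exp (-(∑ i, w i ^ 2 * ((q i : ℝ) / b / c) / 2)) := by
      rw [← Finset.sum_neg_distrib, Real.exp_sum]
      refine Finset.prod_congr rfl fun i _ => ?_
      rw [← Real.exp_nat_mul, hu2]
      congr 1
      field_simp
    have h2 : -(∑ i, w i ^ 2) / 2 = -(∑ i, w i ^ 2 / 2) := by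
      rw [← Finset.sum_div]
      ring
    rw [h1, h2]
    refine (exp_diff (Finset.sum_nonneg fun i _ => by positivity)
      (Finset.sum_nonneg fun i _ => by positivity)).trans ?_
    rw [← Finset.sum_sub_distrib]
    refine (Finset.abs_sum_le_sum_abs _ _).trans ?_
    have hη : min 1 (c * ε / (k * A ^ 2 + 1)) ≤ c * ε / (k * A ^ 2 + 1) := min_le_right _ _
    have h3 : ∀ i, |w i ^ 2 * ((q i : ℝ) / b / c) / 2 - w i ^ 2 / 2| ≤
        A ^ 2 * (ε / (k * A ^ 2 + 1)) / 2 := by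
      intro i
      have e : w i ^ 2 * ((q i : ℝ) / b / c) / 2 - w i ^ 2 / 2 =
          w i ^ 2 * (((q i : ℝ) / b - c) / c) / 2 := by
        field_simp
      rw [e, abs_div, abs_mul, abs_div, abs_of_nonneg (sq_nonneg (w i)), abs_of_pos hc0,
        abs_of_pos (zero_lt_two' ℝ)]
      apply div_le_div_of_nonneg_right _ zero_le_two
      apply mul_le_mul (hw2 i) _ (by positivity) (by positivity)
      rw [div_le_iff₀ hc0]
      refine ((hq i).trans hη).trans (le_of_eq ?_)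
      ring
    calc ∑ i, |w i ^ 2 * ((q i : ℝ) / b / c) / 2 - w i ^ 2 / 2|
        ≤ ∑ _i : Fin k, A ^ 2 * (ε / (k * A ^ 2 + 1)) / 2 := Finset.sum_le_sum fun i _ => h3 i
      _ = k * (A ^ 2 * (ε / (k * A ^ 2 + 1)) / 2) := by simp
      _ ≤ ε / 2 := by
        have h4 : k * (A ^ 2 * (ε / (k * A ^ 2 + 1)) / 2) =
            ε * (k * A ^ 2) / (k * A ^ 2 + 1) / 2 := by ring
        rw [h4]
        apply div_le_div_of_nonneg_right _ zero_le_two
        rw [div_le_iff₀ (by positivity)]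
        nlinarith
  have h := abs_sub_le (∏ i, Real.cos (w i / √(c * b)) ^ q i)
    (∏ i, Real.exp (-((w i / √(c * b)) ^ 2 / 2)) ^ q i) (Real.exp (-(∑ i, w i ^ 2) / 2))
  linarith

end Pool.Agent.Y954.GM
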